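import Pool.Agent.H537.TR.Fin3

/-!
# Quadruples free of small prime factors: when are the expected numbers wrong for large moduli?

The quadruples `n, n+2, n+6, n+8` (or `n, n+4, n+6, n+10`) without a prime factor `p ≤ z` are the sifted
model of the prime quadruples: for `G = x(x+2)(x+6)(x+8)` (or `x(x+4)(x+6)(x+10)`) they are the `n` for
which no prime `p ≤ z` divides `G(n)`. Their expected number in an interval of length `N` and a class `a`
modulo `q` is the one given by the independence of the primes `p ≤ z`, the prediction of Hardy and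
Littlewood. By the fundamental lemma of the sieve it is right, for all classes modulo all `q` of size
`N / (log N) ^ B`, if `z = (log N) ^ (o(1))`. We prove, for every nonconstant polynomial `G` without a fixed
prime divisor, that it is wrong for all larger `z`: if `(log N) ^ A ≤ z ≤ N ^ (1 / u)`, where `A > 0` is
arbitrary, it is wrong by a constant factor on average over the moduli `Q < q ≤ 2 Q`, `Q = N / (log N) ^ B`:
in EVERY interval `(Y, Y + N]` with `Y ≤ N ^ D` there is a class `a ∈ (Y, Y + N ^ ε]` with too many, and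
one with too few sifted numbers.

Proof. Write `Y = 0` (the polynomial may be translated). There is an `a ≤ N ^ ε` for which `G(a)` has no
prime factor `p ≤ w`, is divisible by all those primes `w < p ≤ z'` for which the congruence is solvable,
and has few prime factors `z' < p ≤ (log N) ^ (B + 2)`. If `n = a + q m` and no prime `p ≤ z` divides `G(n)`
then `q` and `m` have no common prime factor `p ≤ z` with `G(a)`, and the sum over `q` is the sum over the
cofactors `m ≤ 2 (log N) ^ B` of the numbers of the sifted `n ≡ a (mod m)` in intervals, which the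
fundamental lemma gives. If `w = (log N) ^ (B / (K + 1))`, `z' = (log N) ^ (B / K)` then the inclusion and
exclusion of the prime factors of `m` stops after `K` steps; the number of the `m` coprime to these primes
differs from its expected value by a constant factor, in the direction given by the parity of `K`, whereas
the large factors `q` are regularly distributed. For the primes (`G = x`, no sieve) this is the argument
of Friedlander and Granville (1989).
-/

set_option autoImplicit false

open Finset Filter Polynomial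

namespace Pool.Agent.Results.MP_092512_nt.LimitsOfSifting

/-- the number of the residue classes `n` modulo `p` with `p ∣ G(n)` -/
def om (G : ℤ[X]) (p : ℕ) : ℕ := ((range p).filter (fun n : ℕ => (p : ℤ) ∣ G.eval (n : ℤ))).card

open Classical in
/-- the number of the `n` in `(Y, Y + N]` with `n ≡ a (mod q)` for which no prime `p ≤ z` divides `G(n)` -/
noncomputable def count (G : ℤ[X]) (z Y N q a : ℕ) : ℕ :=
  ((Ioc Y (Y + N)).filter (fun n : ℕ => n ≡ a [MOD q] ∧
    ∀ p : ℕ, p.Prime → p ≤ z → ¬ (p : ℤ) ∣ G.eval (n : ℤ))).card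

/-- the expected number: `N / q` times the product of `1 - om(p) / p` over the primes `p ≤ z`, `p ∤ q` -/
noncomputable def expected (G : ℤ[X]) (z N q : ℕ) : ℝ :=
  (N : ℝ) / q * ∏ p ∈ (Icc 1 z).filter (fun p : ℕ => p.Prime ∧ ¬ p ∣ q), (1 - (om G p : ℝ) / p)

open Classical in
/-- the moduli `Q < q ≤ 2 Q` for which no prime `p ≤ z` divides both `q` and `G(a)`
(for the other moduli there is no sifted `n ≡ a (mod q)`) -/
noncomputable def moduli (G : ℤ[X]) (z Q a : ℕ) : Finset ℕ :=
  (Ioc Q (2 * Q)).filter (fun q : ℕ => ∀ p : ℕ, p.Prime → p ≤ z → p ∣ q → ¬ (p : ℤ) ∣ G.eval (a : ℤ))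

/-- **The limits of the equidistribution of the sifted values of a polynomial.** Let `G` be a nonconstant
polynomial with integer coefficients such that no prime divides all its values, such as
`x(x+2)(x+6)(x+8)` and `x(x+4)(x+6)(x+10)`, and let `A, B > 0`. There are `h > 0` and `u` such that for all
`D ≥ 0`, `ε > 0` and all large `N`, with `Q = ⌊N / (log N)^B⌋`: for EVERY `Y ≤ N ^ D` and EVERY `z` with
`(log N)^A ≤ z` and `z ^ u ≤ N` there is an `a ∈ (Y, Y + N ^ ε]` such that the total number of the sifted
`n ∈ (Y, Y + N]`, `n ≡ a (mod q)`, over the moduli `q ∈ (Q, 2Q]`, is at least `1 + h` times the (positive)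
expected one, and an `a ∈ (Y, Y + N ^ ε]` such that it is at most `1 - h` times the (positive) expected
one. (If `z = (log N)^{o(1)}` all these numbers are asymptotically the expected ones, by the fundamental
lemma of the sieve: `Pool.Agent.H537.TR.regular`.) -/
theorem result (G : ℤ[X]) (hG : 0 < G.natDegree) (hadm : ∀ p : ℕ, p.Prime → om G p < p)
    (A B : ℝ) (hA : 0 < A) (hB : 0 < B) :
    ∃ h : ℝ, 0 < h ∧ ∃ u : ℕ, ∀ D : ℝ, 0 ≤ D → ∀ ε : ℝ, 0 < ε →
      ∀ᶠ N : ℕ in atTop, ∀ Y z : ℕ, (Y : ℝ) ≤ (N : ℝ) ^ D → Real.log N ^ A ≤ z → z ^ u ≤ N →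
      (∃ a : ℕ, Y < a ∧ (a : ℝ) ≤ Y + (N : ℝ) ^ ε ∧
        0 < ∑ q ∈ moduli G z ⌊(N : ℝ) / Real.log N ^ B⌋₊ a, expected G z N q ∧
        (1 + h) * ∑ q ∈ moduli G z ⌊(N : ℝ) / Real.log N ^ B⌋₊ a, expected G z N q ≤
          ∑ q ∈ moduli G z ⌊(N : ℝ) / Real.log N ^ B⌋₊ a, (count G z Y N q a : ℝ)) ∧
      (∃ a : ℕ, Y < a ∧ (a : ℝ) ≤ Y + (N : ℝ) ^ ε ∧
        0 < ∑ q ∈ moduli G z ⌊(N : ℝ) / Real.log N ^ B⌋₊ a, expected G z N q ∧
        ∑ q ∈ moduli G z ⌊(N : ℝ) / Real.log N ^ B⌋₊ a, (count G z Y N q a : ℝ) ≤
          (1 - h) * ∑ q ∈ moduli G z ⌊(N : ℝ) / Real.log N ^ B⌋₊ a, expected G z N q) :=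
  Pool.Agent.H537.TR.main2 G hG hadm A B hA hB

end Pool.Agent.Results.MP_092512_nt.LimitsOfSifting
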