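import Pool.Agent.H559.BI.Pt
import Pool.Agent.H559.BI.QP
import Pool.Agent.H559.HY.CutW
import Pool.Agent.H559.HY.FinBH
import Pool.Agent.H559.BS.Main

set_option autoImplicit false

/-!
# Prime quadruples with prescribed leading and trailing digits, exact constants, in the random sieve model

For every prime `q` a residue class `a q` modulo `q` is drawn uniformly and independently. The random primes are the
integers `v ≥ 3` which are, for all primes `q ≤ z v`, not in the class `0` modulo `q` if `q ≤ (log v) ^ c`, and not in the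
class `a q` modulo `q` if `q > (log v) ^ c`. This is the model of Banks, Ford and Tao (*Large prime gaps and
probabilistic models*) in which the small primes sieve out the class `0` as they do for the true primes. The sieving
limit `z` is any nondecreasing function for which `∏_{q ≤ z v} (1 - 1 / q)` is asymptotic to `1 / log v`; the choice `zBFT`
of Banks, Ford and Tao is one of them. The exponent `c` is any number larger than `1`.

The theorem: almost surely, for all `δ > 0` and all bounds `P₀`, uniformly for all moduli `m` composed of primes `≤ P₀` (for instance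
`m = 10 ^ j`), all residue classes `r` modulo `m` and all `y ≤ X` with `y ≥ m X ^ δ`: the number of the quadruples
`(v, v + 2, v + 6, v + 8)` of random primes with `X < v ≤ X + y` and `v ≡ r (mod m)` is asymptotic to
`E · y / (m β log⁴ X)` if `r, r + 2, r + 6, r + 8` are prime to `m`, where `β = ∏_{p ∣ m} (1 - ν(p)/p)`, `ν(p)` the number of the classes of `0, 2, 6, 8` modulo `p`; and the same
for `(v, v + 4, v + 6, v + 10)` with `2E` and the classes of `0, 4, 6, 10`. With `m = 1`, `y = X` these are the two asymptotic formulas of the question, in dyadic form, with the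
true constants.
-/

open MeasureTheory ProbabilityTheory Filter Topology

namespace Pool.Agent.Results.MP_092512_nt.QuadruplesWithPrescribedDigits

/-- `V m = ∏ (1 - 1 / q)` over the primes `q ≤ m` -/
noncomputable def V (m : ℕ) : ℝ := ∏ q ∈ (Finset.range (m + 1)).filter Nat.Prime, (1 - 1 / (q : ℝ))

/-- the classes `a q` are independent, and `a q` is uniform on `0, …, q - 1` for every prime `q` -/
structure Model {Ω : Type} [MeasurableSpace Ω] (P : Measure Ω) (a : ℕ → Ω → ℕ) : Prop where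
  measurable : ∀ q, Measurable (a q)
  independent : iIndepFun a P
  uniform : ∀ q, q.Prime → ∀ r < q, P.real {ω | a q ω = r} = 1 / q

/-- the sieving limit of Banks, Ford and Tao: the largest `m` with `∏_{q ≤ m} (1 - 1 / q)⁻¹ ≤ log n` -/
noncomputable def zBFT (n : ℕ) : ℕ := sSup {m : ℕ | (V m)⁻¹ ≤ Real.log n}

/-- the admissible sieving limits: the density of the random primes near `v` is asymptotic to `1 / log v` -/
def Limit (z : ℕ → ℕ) : Prop := Monotone z ∧ Tendsto (fun v => V (z v) * Real.log v) atTop (𝓝 1)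

open Classical in
/-- the set of the random primes of a sample -/
def R {Ω : Type} (z : ℕ → ℕ) (c : ℝ) (a : ℕ → Ω → ℕ) (ω : Ω) : Set ℕ :=
  {v | 3 ≤ v ∧ ∀ q ≤ z v, q.Prime → v % q ≠ if (q : ℝ) ≤ Real.log v ^ c then 0 else a q ω}

/-- the partial products of `E = (27/2) ∏_{q > 3} q³ (q - 4)/(q - 1)⁴` -/
noncomputable def partialE (N : ℕ) : ℝ :=
  27 / 2 * ∏ q ∈ (Finset.range N).filter (fun q => q.Prime ∧ 3 < q), (q : ℝ) ^ 3 * (q - 4) / (q - 1) ^ 4

/-- the number of the `v ∈ (X, X + y]`, `v ≡ r (mod m)`, with `v + h ∈ A` for all `h ∈ H` -/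
noncomputable def count (A : Set ℕ) (H : Finset ℕ) (m r X y : ℕ) : ℕ :=
  {v : ℕ | X < v ∧ v ≤ X + y ∧ v ≡ r [MOD m] ∧ ∀ h ∈ H, v + h ∈ A}.ncard

/-- `∏ (1 - ν(p)/p)` over the primes `p` dividing `m`, `ν(p)` the number of the classes of `H` modulo `p` -/
noncomputable def beta (H : Finset ℕ) (m : ℕ) : ℝ := ∏ p ∈ m.primeFactors, (1 - ((H.image (· % p)).card : ℝ) / p)

theorem result :
    (∃ (Ω : Type) (_ : MeasurableSpace Ω) (P : Measure Ω) (a : ℕ → Ω → ℕ), Model P a) ∧ Limit zBFT ∧
    ∃ E : ℝ, 0 < E ∧ Tendsto partialE atTop (𝓝 E) ∧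
      ∀ z : ℕ → ℕ, Limit z → ∀ c : ℝ, 1 < c →
        ∀ (Ω : Type) [MeasurableSpace Ω] (P : Measure Ω) (a : ℕ → Ω → ℕ), Model P a →
          ∀ᵐ ω ∂P, ∀ (P₀ : ℕ) (δ ε : ℝ), 0 < δ → 0 < ε → ∀ᶠ X : ℕ in atTop, ∀ m r y : ℕ, 1 ≤ m →
            (∀ p, p.Prime → p ∣ m → p ≤ P₀) → (X : ℝ) ^ δ * m ≤ y → y ≤ X →
              ((∀ h ∈ ({0, 2, 6, 8} : Finset ℕ), Nat.Coprime (r + h) m) →
                |(count (R z c a ω) {0, 2, 6, 8} m r X y : ℝ) * Real.log X ^ 4 * m * beta {0, 2, 6, 8} m / y - E| ≤ ε) ∧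
              ((∀ h ∈ ({0, 4, 6, 10} : Finset ℕ), Nat.Coprime (r + h) m) →
                |(count (R z c a ω) {0, 4, 6, 10} m r X y : ℝ) * Real.log X ^ 4 * m * beta {0, 4, 6, 10} m / y - 2 * E| ≤ ε) := by
  classical
  obtain ⟨K, hK, hKQ, hp1, hp2⟩ := Pool.Agent.H559.BI.QP.lims
  refine ⟨?_, ⟨Pool.Agent.T2H32.BF.z0_mono, Pool.Agent.T2H32.BF.z0_lim⟩, 27 / 2 * K, by positivity, ?_, ?_⟩
  · obtain ⟨Ω, i, P, a, h⟩ := Pool.Agent.T2H32.BF.exists_model
    exact ⟨Ω, i, P, a, h.measurable, h.independent, h.uniform⟩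
  · exact hKQ.const_mul (27 / 2)
  · intro z hz c hc Ω _ P a hmod
    have h : Pool.Agent.T2H32.BF.Model P a := ⟨hmod.measurable, hmod.independent, hmod.uniform⟩
    have hcut := Pool.Agent.H559.HY.cut_WW c hc
    filter_upwards [Pool.Agent.H559.HY.ae_OK h z (Pool.Agent.H559.HY.WW c) hz hcut] with ω hω
    have e : R z c a ω = Pool.Agent.H559.HY.RS z (Pool.Agent.H559.HY.WW c) (fun p => a p ω) := by
      ext v
      simp only [R, Pool.Agent.H559.HY.RS, Set.mem_ofPred_eq]
      refine and_congr_right fun hv => ?_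
      refine forall_congr' fun q => forall_congr' fun _ => forall_congr' fun _ => ?_
      have h0 : 0 ≤ Real.log v ^ c := Real.rpow_nonneg (Real.log_nonneg (by
        have : 1 ≤ v := by omega
        exact_mod_cast this)) c
      have h1 : (q : ℝ) ≤ Real.log v ^ c ↔ q ≤ Pool.Agent.H559.HY.WW c v := (Nat.le_floor_iff h0).symm
      by_cases h2 : (q : ℝ) ≤ Real.log v ^ c
      · rw [if_pos h2, if_pos (h1.1 h2)]
      · rw [if_neg h2, if_neg (fun h3 => h2 (h1.2 h3))]
    rw [e]
    intro P₀ δ ε hδ hε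
    have c1 : ({0, 2, 6, 8} : Finset ℕ).card = 4 := by decide
    have c2 : ({0, 4, 6, 10} : Finset ℕ).card = 4 := by decide
    filter_upwards [Pool.Agent.H559.BI.t_pt z _ hz hcut _ hω {0, 2, 6, 8} ⟨0, by simp⟩ _ hp1 P₀ δ ε hδ hε,
      Pool.Agent.H559.BI.t_pt z _ hz hcut _ hω {0, 4, 6, 10} ⟨0, by simp⟩ _ hp2 P₀ δ ε hδ hε]
      with X h1 h2 m r y hm hP hy1 hy2
    refine ⟨fun hr => ?_, fun hr => ?_⟩
    · have h3 := h1 m r y hm hP hr hy1 hy2
      rw [c1] at h3
      have e3 : (count (Pool.Agent.H559.HY.RS z (Pool.Agent.H559.HY.WW c) (fun p => a p ω)) {0, 2, 6, 8} m r X y : ℝ) *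
          Real.log X ^ 4 * m * beta {0, 2, 6, 8} m / y =
          (Pool.Agent.H559.BI.cQ (Pool.Agent.H559.HY.RS z (Pool.Agent.H559.HY.WW c) (fun p => a p ω)) {0, 2, 6, 8} m r X y : ℝ) *
            Real.log X ^ 4 * m / y * ∏ p ∈ m.primeFactors, (1 - ((({0, 2, 6, 8} : Finset ℕ).image (· % p)).card : ℝ) / p) := by
        unfold beta count Pool.Agent.H559.BI.cQ
        ring
      rw [e3]
      exact h3
    · have h3 := h2 m r y hm hP hr hy1 hy2
      rw [c2] at h3
      have e3 : (count (Pool.Agent.H559.HY.RS z (Pool.Agent.H559.HY.WW c) (fun p => a p ω)) {0, 4, 6, 10} m r X y : ℝ) *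
          Real.log X ^ 4 * m * beta {0, 4, 6, 10} m / y =
          (Pool.Agent.H559.BI.cQ (Pool.Agent.H559.HY.RS z (Pool.Agent.H559.HY.WW c) (fun p => a p ω)) {0, 4, 6, 10} m r X y : ℝ) *
            Real.log X ^ 4 * m / y * ∏ p ∈ m.primeFactors, (1 - ((({0, 4, 6, 10} : Finset ℕ).image (· % p)).card : ℝ) / p) := by
        unfold beta count Pool.Agent.H559.BI.cQ
        ring
      have e4 : (2 : ℝ) * (27 / 2 * K) = 27 * K := by ring
      rw [e3, e4]
      exact h3

end Pool.Agent.Results.MP_092512_nt.QuadruplesWithPrescribedDigits
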