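import Pool.Agent.H579.R.TupQR
import Pool.Agent.H579.R.Reg

/-!
# Prime quadruples (and `(k + 1)`-tuples): the formula of Hardy and Littlewood for almost all shapes whose entries lie in
# prescribed residue classes of moduli up to `x ^ (2 / 3 - ρ)`

The question asks for the asymptotic formula `N(x) ~ E x / (log x) ^ 4` for the number of the primes `p ≤ x` with
`p + 2`, `p + 6`, `p + 8` prime, and `N(x) ~ 2 E x / (log x) ^ 4` for `p + 4`, `p + 6`, `p + 10`. The constants `E` and
`2 E` are the singular series `S(2, 6, 8)` and `S(4, 6, 10)`. We prove this formula, for both normalisations (with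
weights `log p ∏ log (p + h_i)` the error term is `O(x / (log x) ^ A)`), for almost all shapes `(h_1, ..., h_k)` taken
from THIN sets: `h_i ≡ a_i (mod q_i)`, where the moduli `q_i` may be as large as `x ^ (2 / 3 - ρ)` and the classes
`a_i` are arbitrary (for instance `a = (2, 6, 8)` and `a = (4, 6, 10)`). There are only about `x ^ (1 / 3 + ρ)`
possible values for each entry `h_i ≤ x`, and all but `∏ (x / q_i) / (log x) ^ A` of the shapes satisfy

  `#{p ≤ x : p, p + h_1, ..., p + h_k prime} = (1 + O(ε)) S(h) x / (log x) ^ (k + 1) + O(x / (log x) ^ A)`.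

The moduli have to be regular: not divisible by a member of a set `D` of at most `(log x) ^ c` integers, the RADICALS
of which are larger than any given power of `log x`; `D` does not depend on the moduli, the classes and the shapes. In
particular there is NO condition on moduli whose radical is at most a power of `log x`, for instance `q_i = 10 ^ m`:
prescribed last digits. For the other moduli some condition of this kind is necessary with present knowledge (Siegel
zeros). For moduli up to a power of `log x` this is the classical result for almost all shapes.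

Proof. The sums of `Λ - (sieve model)` over the Dirichlet characters modulo `q ≤ x ^ (2 / 3 - ρ)` are small in mean
square on the minor arcs and, apart from few characters, on the major arcs (library: `R460/GH`); a large value of a
primitive character is excluded for all conductors outside a small set (the eighth power of the sum over the primes and
the multiplicative large sieve, `G/CntL`), and for the conductors with a small radical by Postnikov's formula and
Vinogradov's method (`H567/PP`, `R/PG4R`). Hence the sum of the squares over ALL residue classes modulo `q` of the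
trigonometric sums is at most `x ^ 2 / (q (log x) ^ A)` (`G/PG4`), so that the correlation of `Λ - (sieve model)` with
an ARBITRARY bounded function is small for almost all shifts of every class (`G/Wt4`). The factors of the product
`Λ(n + h_1) ... Λ(n + h_k)` are now replaced one after the other by their sieve models, the weight being the product
of all other factors (`G/Multi2`, `G/Tup4`), and the resulting sum is evaluated by the fundamental lemma and the
theorem of Bombieri and Vinogradov (library: `H373R2/T7`).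
-/

set_option autoImplicit false

namespace Pool.Agent.Results.MP_092512_nt.ShapesInSparseClasses

open Finset

/-- the radical of `d`: the product of the primes dividing `d` -/
def rad (d : ℕ) : ℕ := ∏ p ∈ d.primeFactors, p

/-- the number of the primes `p ≤ x` for which all `p + h i` are primes -/
noncomputable def primeTuples {k : ℕ} (x : ℕ) (h : Fin k → ℤ) : ℕ :=
  Set.ncard {p : ℕ | p ≤ x ∧ p.Prime ∧ ∀ i, ∃ r : ℕ, r.Prime ∧ (p : ℤ) + h i = r}

/-- the sum of `log p ∏ log (p + h i)` over these primes `p` -/
noncomputable def weighted {k : ℕ} (x : ℕ) (h : Fin k → ℤ) : ℝ :=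
  ∑ p ∈ (Icc 1 x).filter (fun p : ℕ => p.Prime ∧ ∀ i, ((p : ℤ) + h i).toNat.Prime),
    Real.log p * ∏ i, Real.log ((p : ℤ) + h i).toNat

/-- the number of the residue classes `m` modulo `p` for which `m` or one of the `m + h i` is divisible by `p` -/
noncomputable def classes {k : ℕ} (h : Fin k → ℤ) (p : ℕ) : ℕ :=
  Set.ncard {m : ℕ | m < p ∧ (p ∣ m ∨ ∃ i, (p : ℤ) ∣ m + h i)}

/-- the singular series of Hardy and Littlewood of the tuple `0, h 0, h 1, ...` -/
noncomputable def singular {k : ℕ} (h : Fin k → ℤ) : ℝ :=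
  ∏' p : Nat.Primes, (1 - (classes h p : ℝ) / (p : ℕ)) / (1 - 1 / ((p : ℕ) : ℝ)) ^ (k + 1)

theorem singular_eq {k : ℕ} (h : Fin k → ℤ) :
    Pool.Agent.H579.G.sing (fun _ => 1) (Pool.Agent.H579.G.cons0 h) = singular h := by
  classical
  unfold Pool.Agent.H579.G.sing singular
  congr 1
  funext p
  unfold Pool.Agent.H579.G.fac
  have e : Pool.Agent.H373R2.T7.nuB (Pool.Agent.H579.G.Qf (fun _ => 1) (Pool.Agent.H579.G.cons0 h)) p =
      classes h p := by
    rw [← Pool.Agent.H579.G.nuP_cons]
    unfold Pool.Agent.H373R2.T7.nuP classes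
    rw [← Set.ncard_coe_finset]
    congr 1
    ext m
    rw [Finset.mem_coe, Finset.mem_filter, Finset.mem_range, Set.mem_ofPred_eq]
  rw [e]

theorem toNat_prime {n : ℕ} {h : ℤ} (h0 : 0 < h) : ((n : ℤ) + h).toNat.Prime ↔ Pool.Agent.H579.G.PrP h n := by
  unfold Pool.Agent.H579.G.PrP
  constructor
  · intro h1
    exact ⟨_, h1, by omega⟩
  · rintro ⟨p, hp, he⟩
    have : ((n : ℤ) + h).toNat = p := by omega
    rw [this]
    exact hp

/-- **Prime tuples with shapes in sparse residue classes.** For all `k ≥ 1` (`k = 3`: quadruples), `ρ, ε > 0` and `A`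
there is `c` such that for all `B` and all sufficiently large `x` there is a set `D` of at most `(log x) ^ c` integers,
all of them with a radical larger than `(log x) ^ B`, such that for all moduli `1 ≤ q_i ≤ x ^ (2 / 3 - ρ)` which have a
radical `≤ (log x) ^ B` or are not divisible by a member of `D` and ALL integers `a_i`, `i = 1, ..., k`, all but at most `(∏ x / q_i) / (log x) ^ A` of the tuples `h` of
distinct integers `0 < h_i ≤ x`, `h_i ≡ a_i (mod q_i)`, satisfy both
`|weighted x h - singular(h) x| ≤ x / (log x) ^ A` and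
`|primeTuples x h - singular(h) x / (log x) ^ (k + 1)| ≤ ε singular(h) x / (log x) ^ (k + 1) + x / (log x) ^ A`. -/
theorem result (k : ℕ) (hk : 1 ≤ k) (ρ : ℝ) (hρ : 0 < ρ) (ε : ℝ) (hε : 0 < ε) (A : ℕ) :
    ∃ c : ℕ, ∀ B : ℕ, ∃ x₀ : ℕ, ∀ x : ℕ, x₀ ≤ x →
      ∃ D : Finset ℕ, (D.card : ℝ) ≤ Real.log x ^ c ∧ (∀ d ∈ D, Real.log x ^ B < (rad d : ℝ)) ∧
      ∀ q : Fin k → ℕ, (∀ i, 1 ≤ q i ∧ (q i : ℝ) ≤ (x : ℝ) ^ (2 / 3 - ρ) ∧
        ((rad (q i) : ℝ) ≤ Real.log x ^ B ∨ ∀ d ∈ D, ¬ d ∣ q i)) → ∀ a : Fin k → ℤ,
        ({h : Fin k → ℤ | Function.Injective h ∧ (∀ i, 0 < h i ∧ h i ≤ x ∧ h i ≡ a i [ZMOD q i]) ∧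
          ¬ (|weighted x h - singular h * x| ≤ x / Real.log x ^ A ∧
            |(primeTuples x h : ℝ) - singular h * (x / Real.log x ^ (k + 1))| ≤
              ε * (singular h * (x / Real.log x ^ (k + 1))) + x / Real.log x ^ A)}.ncard : ℝ) ≤
            (∏ i, ((x : ℝ) / q i)) / Real.log x ^ A := by
  classical
  obtain ⟨c, h1⟩ := Pool.Agent.H579.R.tupQR k hk hρ A hε
  refine ⟨c, fun B => ?_⟩
  obtain ⟨x₀, h2⟩ := h1 B
  refine ⟨x₀, fun x hx => ?_⟩
  obtain ⟨D, hD1, hD2, h3⟩ := h2 x hx
  refine ⟨D, hD1, hD2, fun q hq a => ?_⟩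
  have h4 := h3 q (fun i => ⟨(hq i).1, (hq i).2.1, Pool.Agent.H579.R.reg_of_rad (hq i).1 hD2 (hq i).2.2⟩) a
  obtain ⟨T, hT⟩ : ∃ T : Set (Fin k → ℤ), T = {h : Fin k → ℤ | Function.Injective h ∧
      (∀ i, 0 < h i ∧ h i ≤ x ∧ h i ≡ a i [ZMOD q i]) ∧
      ¬ (|weighted x h - singular h * x| ≤ x / Real.log x ^ A ∧
        |(primeTuples x h : ℝ) - singular h * (x / Real.log x ^ (k + 1))| ≤
          ε * (singular h * (x / Real.log x ^ (k + 1))) + x / Real.log x ^ A)} := ⟨_, rfl⟩
  rw [← hT]
  have hfin : T.Finite := by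
    refine Set.Finite.subset (Fintype.piFinset (fun _ : Fin k => Finset.Icc (-(x : ℤ)) x)).finite_toSet ?_
    intro h hh
    rw [Finset.mem_coe, Fintype.mem_piFinset]
    intro i
    rw [hT] at hh
    obtain ⟨e1, e2, -⟩ := hh.2.1 i
    exact Finset.mem_Icc.2 ⟨by omega, e2⟩
  rw [Set.ncard_eq_toFinset_card T hfin]
  refine h4 hfin.toFinset (fun h hh => ?_) (fun h hh => ?_)
  · have e1 := hfin.mem_toFinset.1 hh
    rw [hT] at e1
    exact ⟨e1.1, e1.2.1⟩
  · have e1 := hfin.mem_toFinset.1 hh
    rw [hT] at e1
    obtain ⟨-, e2, e3⟩ := e1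
    rw [singular_eq]
    have e4 : Pool.Agent.H579.G.wsum x h = weighted x h := by
      rw [Pool.Agent.H579.G.wsum_eq]
      unfold weighted
      refine sum_congr ?_ fun _ _ => rfl
      refine filter_congr fun n _ => and_congr_right fun _ => forall_congr' fun i => ?_
      exact (toNat_prime (e2 i).1).symm
    have e5 : Pool.Agent.H579.G.cntP x h = primeTuples x h := by
      unfold Pool.Agent.H579.G.cntP primeTuples
      rw [← Set.ncard_coe_finset]
      congr 1
      ext n
      rw [Finset.mem_coe, Finset.mem_filter, Finset.mem_Icc, Set.mem_ofPred_eq]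
      constructor
      · rintro ⟨⟨-, k1⟩, k2, k3⟩
        exact ⟨k1, k2, k3⟩
      · rintro ⟨k1, k2, k3⟩
        exact ⟨⟨k2.one_le, k1⟩, k2, k3⟩
    rw [e4, e5]
    rw [not_and_or, not_le, not_le] at e3
    exact e3

end Pool.Agent.Results.MP_092512_nt.ShapesInSparseClasses
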