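import Pool.Agent.H530.HzQ

/-!
# Sums of three starts of almost prime quadruples, with prescribed parities

`N₁` and `N₂` count the quadruples `p, p + 2, p + 6, p + 8` and `p, p + 4, p + 6, p + 10` of primes. Let `H₁`, `H₂`,
`H₃` be admissible `k`-tuples of integers of any size and `N` large. For `y ^ K ≤ N` let `G_j` be the set of the
`n ≤ N` for which none of the `k` numbers `n + H_j i` has a prime factor `≤ y`. Put `δ = 2 ^ (-⌊K / A⌋)`.

* Every large `N` without local obstruction at the primes `≤ 2 k` is a sum of three elements of `G₁`, `G₂`, `G₃`; the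
  number of these representations has the right order of magnitude, and the parities of the numbers of prime
  factors of `n₁ + b₁`, `n₂ + b₂`, `n₃ + b₃` are independent: each of the eight patterns has share `1 / 8`, up to
  `δ`, for EVERY such `N`.
* For arbitrary subsets of `G₁`, `G₂` (for example true prime quadruples) the third parity is still balanced.
* For the two quadruples: all `N = 3 (mod 30)`, respectively all `N = 3 (mod 6)` prime to `5`.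
-/

set_option autoImplicit false

namespace Pool.Agent.Results.MP_092512_nt.SumsOfThreeQuadruples

open Finset

open Classical in
/-- the `n`, `1 ≤ n ≤ X`, for which none of the numbers `n + H i` has a prime factor up to `y` -/
noncomputable def rough {k : ℕ} (H : Fin k → ℤ) (y X : ℕ) : Finset ℕ :=
  (Icc 1 X).filter (fun n => ∀ p : ℕ, p.Prime → p ≤ y → ∀ i, ¬ (p : ℤ) ∣ n + H i)

/-- no prime divides the product of the `n + H i` for all integers `n` -/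
def Admissible {k : ℕ} (H : Fin k → ℤ) : Prop := ∀ p : ℕ, p.Prime → ∃ n : ℤ, ∀ i, ¬ (p : ℤ) ∣ n + H i

/-- no local obstruction: for every prime `p ≤ 2 k` there are residues `n₁ + n₂ + n₃ = N` such that `p` divides none of
the `n_j + H_j i` -/
def Soluble {k : ℕ} (H₁ H₂ H₃ : Fin k → ℤ) (N : ℕ) : Prop :=
  ∀ p : ℕ, p.Prime → p ≤ 2 * k → ∃ n₁ n₂ : ℤ, (∀ i, ¬ (p : ℤ) ∣ n₁ + H₁ i) ∧ (∀ i, ¬ (p : ℤ) ∣ n₂ + H₂ i) ∧
    ∀ i, ¬ (p : ℤ) ∣ N - n₁ - n₂ + H₃ i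

open Classical in
/-- the representations `N = n₁ + n₂ + n₃`, `n_j` in `rough H_j y N` -/
noncomputable def reps {k : ℕ} (H₁ H₂ H₃ : Fin k → ℤ) (N y : ℕ) : Finset (ℕ × ℕ × ℕ) :=
  (rough H₁ y N ×ˢ rough H₂ y N ×ˢ rough H₃ y N).filter (fun t => t.1 + t.2.1 + t.2.2 = N)

/-- `m` is not zero and its number of prime factors is odd (`s` true), or even (`s` false) -/
def Par (s : Bool) (m : ℤ) : Prop := m ≠ 0 ∧ (Odd (ArithmeticFunction.cardFactors m.natAbs) ↔ s = true)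

open Classical in
/-- the representations at which `n₁ + b₁`, `n₂ + b₂`, `n₃ + b₃` have the parities `s₁`, `s₂`, `s₃` -/
noncomputable def pattern {k : ℕ} (H₁ H₂ H₃ : Fin k → ℤ) (N y : ℕ) (b₁ b₂ b₃ : ℤ) (s₁ s₂ s₃ : Bool) :
    Finset (ℕ × ℕ × ℕ) :=
  (reps H₁ H₂ H₃ N y).filter (fun t => Par s₁ (t.1 + b₁) ∧ Par s₂ (t.2.1 + b₂) ∧ Par s₃ (t.2.2 + b₃))

open Classical in
/-- the representations with `n₁ ∈ S₁`, `n₂ ∈ S₂` at which `n₃ + b` has the parity `s` -/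
noncomputable def within {k : ℕ} (H₁ H₂ H₃ : Fin k → ℤ) (N y : ℕ) (S₁ S₂ : Finset ℕ) (b : ℤ) (s : Bool) :
    Finset (ℕ × ℕ × ℕ) :=
  (reps H₁ H₂ H₃ N y).filter (fun t => t.1 ∈ S₁ ∧ t.2.1 ∈ S₂ ∧ Par s (t.2.2 + b))

open Pool.Agent.H530.Ha Pool.Agent.H530.Hz Pool.Agent.H373R2.T7 in
lemma rough_eq {k : ℕ} (H : Fin k → ℤ) (y X : ℕ) :
    rough H y X = Pool.Agent.H530.Ha.RQ (QZ (fun _ => 1) H) X y := by
  classical
  ext n
  rw [mem_RQ]
  unfold rough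
  rw [mem_filter, mem_Icc]
  apply and_congr Iff.rfl
  constructor
  · rintro h p hp ⟨j, hj⟩
    rw [one_mul] at hj
    exact h p (mem_pz.1 hp).2 (mem_pz.1 hp).1 j hj
  · intro h p hp hpy j hj
    refine h p (mem_pz.2 ⟨hpy, hp⟩) ⟨j, ?_⟩
    rw [one_mul]
    exact hj

open Pool.Agent.H530.Ha in
lemma adz {k : ℕ} {H : Fin k → ℤ} (h : Admissible H) : AdZ (fun _ => 1) H := by
  intro p hp
  obtain ⟨n, hn⟩ := h p hp
  refine ⟨n, fun j => ?_⟩
  rw [one_mul]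
  exact hn j

lemma res {p : ℕ} (hp : 0 < p) (n : ℤ) : ∃ m : ℕ, ∀ c : ℤ, (p : ℤ) ∣ (m : ℤ) + c ↔ (p : ℤ) ∣ n + c := by
  have hp0 : (0 : ℤ) < p := by exact_mod_cast hp
  have hs : (((n % p).toNat : ℕ) : ℤ) = n % p := Int.toNat_of_nonneg (Int.emod_nonneg _ hp0.ne')
  refine ⟨(n % p).toNat, fun c => ?_⟩
  rw [hs]
  have h2 : n + c ≡ n % p + c [ZMOD p] := (Int.mod_modEq n p).symm.add_right _
  rw [← Int.modEq_zero_iff_dvd, ← Int.modEq_zero_iff_dvd]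
  exact ⟨fun h => h2.trans h, fun h => h2.symm.trans h⟩

open Pool.Agent.H530.Ha Pool.Agent.H530.Hz Pool.Agent.H373R2.T7 in
lemma loc3 {k : ℕ} {H₁ H₂ H₃ : Fin k → ℤ} {N : ℕ} (h : Soluble H₁ H₂ H₃ N) :
    Loc3 k (QZ (fun _ => 1) H₁) (QZ (fun _ => 1) H₂) (QZ (fun _ => 1) H₃) N := by
  intro p hp
  have hpp := (mem_pz.1 hp).2
  obtain ⟨n1, n2, hn1, hn2, hn3⟩ := h p hpp (mem_pz.1 hp).1
  obtain ⟨m1, h1⟩ := res hpp.pos n1
  obtain ⟨m2, h2⟩ := res hpp.pos n2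
  obtain ⟨m3, h3⟩ := res hpp.pos ((N : ℤ) - n1 - n2)
  refine ⟨m1, m2, m3, ?_, ?_, ?_, ?_⟩
  · rw [← Int.natCast_modEq_iff]
    push_cast
    have e1 := (h1 (-n1)).2 (by rw [add_neg_cancel]; exact dvd_zero _)
    have e2 := (h2 (-n2)).2 (by rw [add_neg_cancel]; exact dvd_zero _)
    have e3 := (h3 (-((N : ℤ) - n1 - n2))).2 (by rw [add_neg_cancel]; exact dvd_zero _)
    apply Int.ModEq.symm
    rw [Int.modEq_iff_dvd]
    have e4 := dvd_add (dvd_add e1 e2) e3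
    have e5 : (m1 : ℤ) + -n1 + (m2 + -n2) + (m3 + -((N : ℤ) - n1 - n2)) = m1 + m2 + m3 - N := by ring
    rwa [e5] at e4
  · rintro ⟨j, hj⟩
    rw [one_mul] at hj
    exact hn1 j ((h1 _).1 hj)
  · rintro ⟨j, hj⟩
    rw [one_mul] at hj
    exact hn2 j ((h2 _).1 hj)
  · rintro ⟨j, hj⟩
    rw [one_mul] at hj
    exact hn3 j ((h3 _).1 hj)

open Pool.Agent.H530.Hz in
lemma reps_eq {k : ℕ} (H₁ H₂ H₃ : Fin k → ℤ) (N y : ℕ) :
    reps H₁ H₂ H₃ N y = rep3 (rough H₁ y N) (rough H₂ y N) (rough H₃ y N) 1 1 1 N := by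
  classical
  unfold reps rep3
  apply filter_congr
  intro t _
  rw [one_mul, one_mul, one_mul, ← add_assoc]
  exact_mod_cast Iff.rfl

open Classical in
/-- the theorem for general tuples -/
theorem general (k : ℕ) (hk : 1 ≤ k) : ∃ c C : ℝ, 0 < c ∧ 0 < C ∧ ∃ A : ℕ, 1 ≤ A ∧ ∀ K : ℕ, A ≤ K → ∀ B : ℕ,
    ∃ N₀ y₀ : ℕ, ∀ N y : ℕ, N₀ ≤ N → y₀ ≤ y → y ^ K ≤ N → ∀ H₁ H₂ H₃ : Fin k → ℤ,
      Admissible H₁ → Admissible H₂ → Admissible H₃ → Soluble H₁ H₂ H₃ N →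
      ∀ g : ℝ, g = ((rough H₁ y N).card : ℝ) * (rough H₂ y N).card * (rough H₃ y N).card / N →
      c * (N / Real.log N ^ k) ≤ (rough H₁ y N).card ∧
      c * (N ^ 2 / Real.log N ^ (3 * k)) ≤ g ∧
      c * g ≤ (reps H₁ H₂ H₃ N y).card ∧ ((reps H₁ H₂ H₃ N y).card : ℝ) ≤ C * g ∧
      ∀ b₁ b₂ b₃ : ℤ, |(b₁ : ℝ)| ≤ N * Real.log N ^ B → |(b₂ : ℝ)| ≤ N * Real.log N ^ B →
        |(b₃ : ℝ)| ≤ N * Real.log N ^ B →
        (∀ s₁ s₂ s₃ : Bool, |8 * ((pattern H₁ H₂ H₃ N y b₁ b₂ b₃ s₁ s₂ s₃).card : ℝ) - (reps H₁ H₂ H₃ N y).card| ≤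
          (1 / 2 : ℝ) ^ (K / A) * (reps H₁ H₂ H₃ N y).card) ∧
        ∀ S₁ S₂ : Finset ℕ, |((within H₁ H₂ H₃ N y S₁ S₂ b₃ true).card : ℝ) -
          (within H₁ H₂ H₃ N y S₁ S₂ b₃ false).card| ≤ (1 / 2 : ℝ) ^ (K / A) * g := by
  obtain ⟨c1, hc1, H1⟩ := Pool.Agent.H530.Ha.all_F k hk
  obtain ⟨K1, hK1, H1⟩ := H1 1 one_pos
  obtain ⟨c2, hc2, A2, hA2, H2⟩ := Pool.Agent.H530.Hz.F3 k hk
  obtain ⟨C3, hC3, K3, hK3, X3, y3, H3⟩ := Pool.Agent.H530.Hz.F3up k hk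
  obtain ⟨A, hAL, hA1, H4⟩ := Pool.Agent.H530.Hz.F3sub k hk (A2 + K1 + K3)
  obtain ⟨c, hc⟩ : ∃ c : ℝ, c = min (min c1 c2) (c1 ^ 3) := ⟨_, rfl⟩
  have hcc1 : c ≤ c1 := by rw [hc]; exact (min_le_left _ _).trans (min_le_left _ _)
  have hcc2 : c ≤ c2 := by rw [hc]; exact (min_le_left _ _).trans (min_le_right _ _)
  have hcc3 : c ≤ c1 ^ 3 := by rw [hc]; exact min_le_right _ _
  have hc0 : 0 < c := by rw [hc]; exact lt_min (lt_min hc1 hc2) (by positivity)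
  refine ⟨c, C3, hc0, hC3, A, hA1, fun K hK B => ?_⟩
  obtain ⟨X1, y1, H1⟩ := H1 B
  obtain ⟨X2, y2, H2⟩ := H2 K (by omega) B
  obtain ⟨X4, y4, H4⟩ := H4 K hK B
  refine ⟨X1 + X2 + X3 + X4 + 2, y1 + y2 + y3 + y4 + 1, ?_⟩
  intro N y hN hy hyN H₁ H₂ H₃ h₁ h₂ h₃ hsol g hg
  have s₁ := Pool.Agent.H530.Ha.sv_QZ (adz h₁)
  have s₂ := Pool.Agent.H530.Ha.sv_QZ (adz h₂)
  have s₃ := Pool.Agent.H530.Ha.sv_QZ (adz h₃)
  have hNr : (2 : ℝ) ≤ N := by exact_mod_cast (by omega : 2 ≤ N)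
  have hlog : 0 < Real.log (N : ℝ) := Real.log_pos (by linarith)
  have hmono := Pool.Agent.H530.Hz.half_mono (K := K) hA2 (show A2 ≤ A by omega)
  have r1 := (H1 _ s₁ N y (by omega) (by omega) ((Nat.pow_le_pow_right (by omega) (by omega)).trans hyN)).1
  have r1' := (H1 _ s₂ N y (by omega) (by omega) ((Nat.pow_le_pow_right (by omega) (by omega)).trans hyN)).1
  have r1'' := (H1 _ s₃ N y (by omega) (by omega) ((Nat.pow_le_pow_right (by omega) (by omega)).trans hyN)).1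
  have r2 := H2 _ _ _ s₁ s₂ s₃ N y (by omega) (by omega) hyN (loc3 hsol)
  have r3 := H3 _ _ _ s₁ s₂ s₃ N y (by omega) (by omega) ((Nat.pow_le_pow_right (by omega) (by omega)).trans hyN)
    1 1 1 one_ne_zero one_ne_zero one_ne_zero N
  have r4 := H4 _ _ _ s₁ s₂ s₃ N y (by omega) (by omega) hyN 1 1 1 one_ne_zero one_ne_zero one_ne_zero N
  rw [← rough_eq] at r1 r1' r1''
  rw [← rough_eq, ← rough_eq, ← rough_eq, ← reps_eq] at r2 r3
  rw [← rough_eq, ← rough_eq, ← rough_eq, ← reps_eq] at r4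
  rw [← hg] at r2 r3 r4
  have hg0 : 0 ≤ g := by rw [hg]; positivity
  refine ⟨?_, ?_, ?_, r3, ?_⟩
  · refine le_trans ?_ r1
    exact mul_le_mul_of_nonneg_right hcc1 (by positivity)
  · have h0 : 0 ≤ c1 * (N / Real.log N ^ k) := by positivity
    have h5 : c1 * (N / Real.log N ^ k) * (c1 * (N / Real.log N ^ k)) * (c1 * (N / Real.log N ^ k)) / N ≤ g := by
      rw [hg]
      apply div_le_div_of_nonneg_right _ (by linarith)
      exact mul_le_mul (mul_le_mul r1 r1' h0 (Nat.cast_nonneg _)) r1'' h0 (by positivity)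
    have e : c1 * (N / Real.log N ^ k) * (c1 * (N / Real.log N ^ k)) * (c1 * (N / Real.log N ^ k)) / N =
        c1 ^ 3 * ((N : ℝ) ^ 2 / Real.log N ^ (3 * k)) := by
      have e2 : Real.log (N : ℝ) ^ (3 * k) = (Real.log (N : ℝ) ^ k) ^ 3 := by rw [mul_comm, pow_mul]
      rw [e2]
      field_simp
    rw [e] at h5
    refine le_trans ?_ h5
    exact mul_le_mul_of_nonneg_right hcc3 (by positivity)
  · refine le_trans ?_ r2.1
    exact mul_le_mul_of_nonneg_right hcc2 hg0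
  · intro b₁ b₂ b₃ hb₁ hb₂ hb₃
    constructor
    · intro t₁ t₂ t₃
      have h := r2.2 b₁ b₂ b₃ hb₁ hb₂ hb₃ _ _ _ (Pool.Agent.H530.Hz.sg_cases t₁) (Pool.Agent.H530.Hz.sg_cases t₂)
        (Pool.Agent.H530.Hz.sg_cases t₃)
      rw [Pool.Agent.H530.Hz.pat3_card] at h
      have e1 : (reps H₁ H₂ H₃ N y).filter (fun t => Pool.Agent.H530.Ha.lz ((t.1 : ℤ) + b₁) = Pool.Agent.H530.Hz.sg t₁ ∧
          Pool.Agent.H530.Ha.lz ((t.2.1 : ℤ) + b₂) = Pool.Agent.H530.Hz.sg t₂ ∧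
          Pool.Agent.H530.Ha.lz ((t.2.2 : ℤ) + b₃) = Pool.Agent.H530.Hz.sg t₃) = pattern H₁ H₂ H₃ N y b₁ b₂ b₃ t₁ t₂ t₃ := by
        unfold pattern
        apply filter_congr
        intro t _
        unfold Par
        rw [Pool.Agent.H530.Hz.par_iff, Pool.Agent.H530.Hz.par_iff, Pool.Agent.H530.Hz.par_iff]
      have e2 : ((reps H₁ H₂ H₃ N y).filter (fun t => Pool.Agent.H530.Ha.lz ((t.1 : ℤ) + b₁) = Pool.Agent.H530.Hz.sg t₁ ∧
          Pool.Agent.H530.Ha.lz ((t.2.1 : ℤ) + b₂) = Pool.Agent.H530.Hz.sg t₂ ∧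
          Pool.Agent.H530.Ha.lz ((t.2.2 : ℤ) + b₃) = Pool.Agent.H530.Hz.sg t₃)).card =
          (pattern H₁ H₂ H₃ N y b₁ b₂ b₃ t₁ t₂ t₃).card := by rw [← e1]
      refine le_trans ?_ (h.trans (mul_le_mul_of_nonneg_right hmono (Nat.cast_nonneg _)))
      apply le_of_eq
      congr 3
      rw [← e2]
    · intro S₁ S₂
      have h := r4 b₃ hb₃ S₁ S₂
      refine le_trans (le_of_eq ?_) h
      have e3 : ∀ s : Bool, ((within H₁ H₂ H₃ N y S₁ S₂ b₃ s).card : ℝ) =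
          ∑ t ∈ (reps H₁ H₂ H₃ N y).filter (fun t => t.1 ∈ S₁ ∧ t.2.1 ∈ S₂),
            (if Pool.Agent.H530.Ha.lz ((t.2.2 : ℤ) + b₃) = Pool.Agent.H530.Hz.sg s then (1 : ℝ) else 0) := by
        intro s
        rw [← sum_filter, filter_filter, sum_const, nsmul_eq_mul, mul_one]
        unfold within
        congr 2
        apply filter_congr
        intro t _
        unfold Par
        rw [Pool.Agent.H530.Hz.par_iff, and_assoc]
      rw [e3, e3, ← sum_sub_distrib, ← abs_neg, ← sum_neg_distrib]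
      congr 1
      apply sum_congr rfl
      intro t _
      rcases Pool.Agent.H530.Hz.lz_cases ((t.2.2 : ℤ) + b₃) with h | h | ⟨h, _⟩ <;> rw [h] <;>
        norm_num [Pool.Agent.H530.Hz.sg]

/-- the quadruple `n, n + 2, n + 6, n + 8` (`s` false) or `n, n + 4, n + 6, n + 10` (`s` true) -/
def quad (s : Bool) : Fin 4 → ℤ := if s then ![0, 4, 6, 10] else ![0, 2, 6, 8]

/-- the residues of the `N` without local obstruction: `3 (mod 30)` for the first quadruple, `3 (mod 6)` and prime to `5`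
for the second -/
def Good (s : Bool) (N : ℕ) : Prop := if s then N % 6 = 3 ∧ N % 5 ≠ 0 else N % 30 = 3

lemma not_dvd_of_lt {p : ℕ} {m : ℤ} (hm : m ≠ 0) (h : m.natAbs < p) : ¬ (p : ℤ) ∣ m := by
  intro hd
  have := Int.le_of_dvd (Int.natCast_pos.2 (Int.natAbs_pos.2 hm)) ((Int.dvd_natAbs).2 hd)
  omega

/-- more residue classes than obstacles -/
lemma avoid {p m : ℕ} (hp : m < p) (c : Fin m → ℤ) : ∃ n : ℤ, ∀ i, ¬ (p : ℤ) ∣ n + c i := by
  by_contra h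
  push Not at h
  have h1 : ∀ j : Fin (m + 1), ∃ i : Fin m, (p : ℤ) ∣ ((j : ℕ) : ℤ) + c i := fun j => h _
  choose f hf using h1
  obtain ⟨j1, j2, hne, he⟩ := Fintype.exists_ne_map_eq_of_card_lt f (by simp)
  have h2 := dvd_sub (hf j1) (hf j2)
  rw [he] at h2
  have e : (((j1 : ℕ) : ℤ) + c (f j2)) - (((j2 : ℕ) : ℤ) + c (f j2)) = ((j1 : ℕ) : ℤ) - ((j2 : ℕ) : ℤ) := by ring
  rw [e] at h2
  have hj1 := j1.2
  have hj2 := j2.2
  refine not_dvd_of_lt ?_ ?_ h2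
  · intro h0
    exact hne (Fin.ext (by omega))
  · omega

lemma small_or {p : ℕ} (hp : p.Prime) : p = 2 ∨ p = 3 ∨ p = 5 ∨ 7 ≤ p := by
  have h2 := hp.two_le
  by_cases h : p < 7
  · interval_cases p
    · tauto
    · tauto
    · exact absurd hp (by norm_num)
    · tauto
    · exact absurd hp (by norm_num)
  · omega

lemma quad_adm (s : Bool) : Admissible (quad s) := by
  intro p hp
  rcases small_or hp with rfl | rfl | rfl | h
  · refine ⟨1, fun i => ?_⟩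
    cases s <;> fin_cases i <;> simp [quad] <;> omega
  · cases s
    · refine ⟨2, fun i => ?_⟩
      fin_cases i <;> simp [quad] <;> omega
    · refine ⟨1, fun i => ?_⟩
      fin_cases i <;> simp [quad] <;> omega
  · cases s
    · refine ⟨1, fun i => ?_⟩
      fin_cases i <;> simp [quad] <;> omega
    · refine ⟨2, fun i => ?_⟩
      fin_cases i <;> simp [quad] <;> omega
  · exact avoid (by omega) _

/-- residues -/
lemma wit {p : ℕ} {s : Bool} {N : ℕ} (a b c : ℤ) (h : (p : ℤ) ∣ N - a - b - c)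
    (ha : ∀ i, ¬ (p : ℤ) ∣ a + quad s i) (hb : ∀ i, ¬ (p : ℤ) ∣ b + quad s i) (hc : ∀ i, ¬ (p : ℤ) ∣ c + quad s i) :
    ∃ n₁ n₂ : ℤ, (∀ i, ¬ (p : ℤ) ∣ n₁ + quad s i) ∧ (∀ i, ¬ (p : ℤ) ∣ n₂ + quad s i) ∧
      ∀ i, ¬ (p : ℤ) ∣ N - n₁ - n₂ + quad s i := by
  refine ⟨a, b, ha, hb, fun i hd => hc i ?_⟩
  have h2 := dvd_sub hd h
  have e : (N : ℤ) - a - b + quad s i - (N - a - b - c) = c + quad s i := by ring
  rwa [e] at h2

lemma quad_sol {s : Bool} {N : ℕ} (h : Good s N) : Soluble (quad s) (quad s) (quad s) N := by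
  intro p hp hp8
  have h2 := hp.two_le
  cases s
  · unfold Good at h
    rw [if_neg (by simp)] at h
    interval_cases p
    · apply wit 1 1 1 (by push_cast; omega) <;> (intro i; fin_cases i <;> simp [quad] <;> omega)
    · apply wit 2 2 2 (by push_cast; omega) <;> (intro i; fin_cases i <;> simp [quad] <;> omega)
    · exact absurd hp (by norm_num)
    · apply wit 1 1 1 (by push_cast; omega) <;> (intro i; fin_cases i <;> simp [quad] <;> omega)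
    · exact absurd hp (by norm_num)
    · have h7 : N % 7 = 0 ∨ N % 7 = 1 ∨ N % 7 = 2 ∨ N % 7 = 3 ∨ N % 7 = 4 ∨ N % 7 = 5 ∨ N % 7 = 6 := by omega
      rcases h7 with h7 | h7 | h7 | h7 | h7 | h7 | h7
      · apply wit 2 2 3 (by push_cast; omega) <;> (intro i; fin_cases i <;> simp [quad] <;> omega)
      · apply wit 2 3 3 (by push_cast; omega) <;> (intro i; fin_cases i <;> simp [quad] <;> omega)
      · apply wit 3 3 3 (by push_cast; omega) <;> (intro i; fin_cases i <;> simp [quad] <;> omega)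
      · apply wit 3 3 4 (by push_cast; omega) <;> (intro i; fin_cases i <;> simp [quad] <;> omega)
      · apply wit 3 4 4 (by push_cast; omega) <;> (intro i; fin_cases i <;> simp [quad] <;> omega)
      · apply wit 4 4 4 (by push_cast; omega) <;> (intro i; fin_cases i <;> simp [quad] <;> omega)
      · apply wit 2 2 2 (by push_cast; omega) <;> (intro i; fin_cases i <;> simp [quad] <;> omega)
    · exact absurd hp (by norm_num)
  · unfold Good at h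
    rw [if_pos rfl] at h
    interval_cases p
    · apply wit 1 1 1 (by push_cast; omega) <;> (intro i; fin_cases i <;> simp [quad] <;> omega)
    · apply wit 1 1 1 (by push_cast; omega) <;> (intro i; fin_cases i <;> simp [quad] <;> omega)
    · exact absurd hp (by norm_num)
    · have h5 : N % 5 = 1 ∨ N % 5 = 2 ∨ N % 5 = 3 ∨ N % 5 = 4 := by omega
      rcases h5 with h5 | h5 | h5 | h5
      · apply wit 2 2 2 (by push_cast; omega) <;> (intro i; fin_cases i <;> simp [quad] <;> omega)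
      · apply wit 2 2 3 (by push_cast; omega) <;> (intro i; fin_cases i <;> simp [quad] <;> omega)
      · apply wit 2 3 3 (by push_cast; omega) <;> (intro i; fin_cases i <;> simp [quad] <;> omega)
      · apply wit 3 3 3 (by push_cast; omega) <;> (intro i; fin_cases i <;> simp [quad] <;> omega)
    · exact absurd hp (by norm_num)
    · have h7 : N % 7 = 0 ∨ N % 7 = 1 ∨ N % 7 = 2 ∨ N % 7 = 3 ∨ N % 7 = 4 ∨ N % 7 = 5 ∨ N % 7 = 6 := by omega
      rcases h7 with h7 | h7 | h7 | h7 | h7 | h7 | h7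
      · apply wit 2 6 6 (by push_cast; omega) <;> (intro i; fin_cases i <;> simp [quad] <;> omega)
      · apply wit 5 5 5 (by push_cast; omega) <;> (intro i; fin_cases i <;> simp [quad] <;> omega)
      · apply wit 2 2 5 (by push_cast; omega) <;> (intro i; fin_cases i <;> simp [quad] <;> omega)
      · apply wit 2 2 6 (by push_cast; omega) <;> (intro i; fin_cases i <;> simp [quad] <;> omega)
      · apply wit 6 6 6 (by push_cast; omega) <;> (intro i; fin_cases i <;> simp [quad] <;> omega)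
      · apply wit 2 5 5 (by push_cast; omega) <;> (intro i; fin_cases i <;> simp [quad] <;> omega)
      · apply wit 2 2 2 (by push_cast; omega) <;> (intro i; fin_cases i <;> simp [quad] <;> omega)
    · exact absurd hp (by norm_num)

open Classical in
/-- the theorem for the two quadruples -/
theorem quadruples : ∃ c C : ℝ, 0 < c ∧ 0 < C ∧ ∃ A : ℕ, 1 ≤ A ∧ ∀ K : ℕ, A ≤ K → ∀ B : ℕ, ∃ N₀ y₀ : ℕ,
    ∀ N y : ℕ, N₀ ≤ N → y₀ ≤ y → y ^ K ≤ N → ∀ s : Bool, Good s N →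
      c * (N ^ 2 / Real.log N ^ 12) ≤ (reps (quad s) (quad s) (quad s) N y).card ∧
      ((reps (quad s) (quad s) (quad s) N y).card : ℝ) ≤ C * (((rough (quad s) y N).card : ℝ) ^ 3 / N) ∧
      ∀ b₁ b₂ b₃ : ℤ, |(b₁ : ℝ)| ≤ N * Real.log N ^ B → |(b₂ : ℝ)| ≤ N * Real.log N ^ B →
        |(b₃ : ℝ)| ≤ N * Real.log N ^ B → ∀ s₁ s₂ s₃ : Bool,
        |8 * ((pattern (quad s) (quad s) (quad s) N y b₁ b₂ b₃ s₁ s₂ s₃).card : ℝ) -
          (reps (quad s) (quad s) (quad s) N y).card| ≤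
          (1 / 2 : ℝ) ^ (K / A) * (reps (quad s) (quad s) (quad s) N y).card := by
  obtain ⟨c, C, hc, hC, A, hA, H⟩ := general 4 (by norm_num)
  refine ⟨c * c, C, by positivity, hC, A, hA, fun K hK B => ?_⟩
  obtain ⟨N₀, y₀, H⟩ := H K hK B
  refine ⟨N₀, y₀, ?_⟩
  intro N y hN hy hyN s hs
  obtain ⟨_, h2, h3, h4, h5⟩ := H N y hN hy hyN (quad s) (quad s) (quad s) (quad_adm s) (quad_adm s) (quad_adm s)
    (quad_sol hs) _ rfl
  refine ⟨?_, ?_, fun b₁ b₂ b₃ hb₁ hb₂ hb₃ => (h5 b₁ b₂ b₃ hb₁ hb₂ hb₃).1⟩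
  · refine le_trans ?_ h3
    rw [mul_assoc]
    exact mul_le_mul_of_nonneg_left h2 hc.le
  · refine h4.trans (le_of_eq ?_)
    ring

open Classical in
/-- **Sums of three starts of almost prime tuples, with prescribed parities.** -/
theorem result :
    (∀ k : ℕ, 1 ≤ k → ∃ c C : ℝ, 0 < c ∧ 0 < C ∧ ∃ A : ℕ, 1 ≤ A ∧ ∀ K : ℕ, A ≤ K → ∀ B : ℕ,
      ∃ N₀ y₀ : ℕ, ∀ N y : ℕ, N₀ ≤ N → y₀ ≤ y → y ^ K ≤ N → ∀ H₁ H₂ H₃ : Fin k → ℤ,
        Admissible H₁ → Admissible H₂ → Admissible H₃ → Soluble H₁ H₂ H₃ N →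
        ∀ g : ℝ, g = ((rough H₁ y N).card : ℝ) * (rough H₂ y N).card * (rough H₃ y N).card / N →
        c * (N / Real.log N ^ k) ≤ (rough H₁ y N).card ∧
        c * (N ^ 2 / Real.log N ^ (3 * k)) ≤ g ∧
        c * g ≤ (reps H₁ H₂ H₃ N y).card ∧ ((reps H₁ H₂ H₃ N y).card : ℝ) ≤ C * g ∧
        ∀ b₁ b₂ b₃ : ℤ, |(b₁ : ℝ)| ≤ N * Real.log N ^ B → |(b₂ : ℝ)| ≤ N * Real.log N ^ B →
          |(b₃ : ℝ)| ≤ N * Real.log N ^ B →
          (∀ s₁ s₂ s₃ : Bool, |8 * ((pattern H₁ H₂ H₃ N y b₁ b₂ b₃ s₁ s₂ s₃).card : ℝ) - (reps H₁ H₂ H₃ N y).card| ≤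
            (1 / 2 : ℝ) ^ (K / A) * (reps H₁ H₂ H₃ N y).card) ∧
          ∀ S₁ S₂ : Finset ℕ, |((within H₁ H₂ H₃ N y S₁ S₂ b₃ true).card : ℝ) -
            (within H₁ H₂ H₃ N y S₁ S₂ b₃ false).card| ≤ (1 / 2 : ℝ) ^ (K / A) * g) ∧
    (∃ c C : ℝ, 0 < c ∧ 0 < C ∧ ∃ A : ℕ, 1 ≤ A ∧ ∀ K : ℕ, A ≤ K → ∀ B : ℕ, ∃ N₀ y₀ : ℕ,
      ∀ N y : ℕ, N₀ ≤ N → y₀ ≤ y → y ^ K ≤ N → ∀ s : Bool, Good s N →
        c * (N ^ 2 / Real.log N ^ 12) ≤ (reps (quad s) (quad s) (quad s) N y).card ∧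
        ((reps (quad s) (quad s) (quad s) N y).card : ℝ) ≤ C * (((rough (quad s) y N).card : ℝ) ^ 3 / N) ∧
        ∀ b₁ b₂ b₃ : ℤ, |(b₁ : ℝ)| ≤ N * Real.log N ^ B → |(b₂ : ℝ)| ≤ N * Real.log N ^ B →
          |(b₃ : ℝ)| ≤ N * Real.log N ^ B → ∀ s₁ s₂ s₃ : Bool,
          |8 * ((pattern (quad s) (quad s) (quad s) N y b₁ b₂ b₃ s₁ s₂ s₃).card : ℝ) -
            (reps (quad s) (quad s) (quad s) N y).card| ≤
            (1 / 2 : ℝ) ^ (K / A) * (reps (quad s) (quad s) (quad s) N y).card) :=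
  ⟨general, quadruples⟩

end Pool.Agent.Results.MP_092512_nt.SumsOfThreeQuadruples
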